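import Pool.Agent.RS.StmtsF

set_option autoImplicit false

/-!
# Squad RS, row BEZ: a bounded Bezout relation
-/

namespace Pool.Agent.RS.H65

open MvPolynomial

/-- BEZ. -/
theorem bez (syl : SylStmt) (sdg : SdgStmt) (ssb : SsbStmt) (nzd : NzdStmt) (pjb : PjbStmt)
    (txc : TxcStmt) : BezStmt := by
  intro D
  refine ⟨(D + D) * D + D + D, ?_⟩
  intro E _ j q b hq hj hqb hqD hbD
  obtain ⟨hq1, -, hq3, hq4, -⟩ := txc E j q
  obtain ⟨hb1, -, hb3, -, -⟩ := txc E j b
  obtain ⟨p1, -, p3, p4, -, -, -, p8⟩ := pjb E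
  have hδ : 0 < (toX j q).natDegree := hq4.2 hj
  have hδD : (toX j q).natDegree ≤ D := hq3.trans hqD
  have hbm : (toX j b).natDegree ≤ D := hb3.trans hbD
  obtain ⟨δ, hδe⟩ : ∃ δ, δ = (toX j q).natDegree := ⟨_, rfl⟩
  rw [← hδe] at hδ hδD
  have hP : (1 : Polynomial (MvPolynomial ℕ E)).degree < ((D + δ : ℕ) : WithBot ℕ) := by
    refine lt_of_le_of_lt Polynomial.degree_one_le ?_
    have h1 : 0 < D + δ := by omega
    exact_mod_cast h1
  have hS := syl (MvPolynomial ℕ E) D δ (toX j b) (toX j q) 1 hbm hδe.symm.le hP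
  have hE := congrArg (Polynomial.eval (X j)) hS
  simp only [Polynomial.eval_add, Polynomial.eval_mul, Polynomial.eval_finsetSum,
    Polynomial.eval_C, Polynomial.eval_pow, Polynomial.eval_X, Polynomial.eval_one, eval_toX,
    mul_one] at hE
  have hone : ∀ i, ((1 : Polynomial (MvPolynomial ℕ E)).coeff i).totalDegree ≤ D := by
    intro i
    rw [Polynomial.coeff_one]
    split_ifs
    · rw [totalDegree_one]
      exact Nat.zero_le _
    · rw [totalDegree_zero]
      exact Nat.zero_le _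
  obtain ⟨d1, d2, d3⟩ := sdg E D δ D (toX j b) (toX j q) 1 (fun i => (hb1 i).trans hbD)
    (fun i => (hq1 i).trans hqD) hone
  have hDD : (D + δ) * D ≤ (D + D) * D := Nat.mul_le_mul_right D (by omega)
  have hX : ∀ i : ℕ, ((X j : MvPolynomial ℕ E) ^ i).totalDegree ≤ i := by
    intro i
    refine (totalDegree_pow _ _).trans ?_
    rw [totalDegree_X, mul_one]
  have hmem : ∀ J : Finset ℕ, q ∈ PJ E J → b ∈ PJ E J →
      (∀ i, sylA D δ (toX j b) (toX j q) 1 i ∈ PJ E (insert j J)) ∧
      (∀ i, sylB D δ (toX j b) (toX j q) 1 i ∈ PJ E (insert j J)) ∧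
      Polynomial.resultant (toX j b) (toX j q) D δ ∈ PJ E (insert j J) := by
    intro J hqJ hbJ
    refine ssb (MvPolynomial ℕ E) (PJ E (insert j J)) D δ (toX j b) (toX j q) 1
      (p4 J j b hbJ) (p4 J j q hqJ) ?_
    intro i
    rw [Polynomial.coeff_one]
    split_ifs
    · exact Subring.one_mem _
    · exact Subring.zero_mem _
  refine ⟨∑ i ∈ Finset.range D, sylB D δ (toX j b) (toX j q) 1 i * X j ^ i,
    ∑ i ∈ Finset.range δ, sylA D δ (toX j b) (toX j q) 1 i * X j ^ i,
    Polynomial.resultant (toX j b) (toX j q) D δ, ?_, ?_, ?_, ?_, ?_, ?_, ?_⟩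
  · rw [← hE, add_comm]
  · have h1 := nzd E j q b D 1 hq hj hqb hbm one_pos
    unfold denT at h1
    rw [pow_one, one_mul, ← hδe] at h1
    exact left_ne_zero_of_mul h1
  · rw [p8 j]
    have h1 := (hmem ∅ ((p1 ∅ q).2 (fun i _ => Finset.notMem_empty i))
      ((p1 ∅ b).2 (fun i _ => Finset.notMem_empty i))).2.2
    rwa [insert_empty_eq] at h1
  · refine totalDegree_finsetSum_le fun i hi => ?_
    have hi' := Finset.mem_range.1 hi
    refine (totalDegree_mul _ _).trans ?_
    have h1 := d2 i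
    have h2 := hX i
    omega
  · refine totalDegree_finsetSum_le fun i hi => ?_
    have hi' := Finset.mem_range.1 hi
    refine (totalDegree_mul _ _).trans ?_
    have h1 := d1 i
    have h2 := hX i
    omega
  · omega
  · intro J hjJ hqJ hbJ
    obtain ⟨m1, m2, m3⟩ := hmem J hqJ hbJ
    have hle : PJ E (insert j J) ≤ PJ E J := p3 J (insert j J) (Finset.subset_insert j J)
    have hXJ : (X j : MvPolynomial ℕ E) ∈ PJ E J := by
      refine (p1 J (X j)).2 fun i hi => ?_
      rw [vars_X, Finset.mem_singleton] at hi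
      rw [hi]
      exact hjJ
    refine ⟨?_, ?_, m3⟩
    · exact Subring.sum_mem _ fun i _ => Subring.mul_mem _ (hle (m2 i)) (Subring.pow_mem _ hXJ i)
    · exact Subring.sum_mem _ fun i _ => Subring.mul_mem _ (hle (m1 i)) (Subring.pow_mem _ hXJ i)

end Pool.Agent.RS.H65
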