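import Pool.Agent.RS.StmtsT

set_option autoImplicit false

/-!
# Squad RS, row LIN
-/

namespace Pool.Agent.RS.H65

open MvPolynomial

theorem lin_pos {Y : Type} (w : Y → ℕ) (hw : ∀ y, 0 < w y) (d : Y →₀ ℕ) (hd : d ≠ 0) :
    0 < Finsupp.weight w d := by
  obtain ⟨z, hz⟩ := Finsupp.ne_iff.1 hd
  rw [Finsupp.weight_apply]
  have h1 : d z • w z ≤ d.sum fun i c => c • w i :=
    Finset.single_le_sum (f := fun i => d i • w i) (fun _ _ => Nat.zero_le _)
      (Finsupp.mem_support_iff.2 hz)
  have h2 : 0 < d z • w z := by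
    rw [smul_eq_mul]
    exact Nat.mul_pos (Nat.pos_of_ne_zero hz) (hw z)
  omega

/-- LIN. -/
theorem lin (hom : HomStmt) : LinStmt := by
  classical
  intro k B _ _ _ gr Y w g hgr hmin n hn b hb
  obtain ⟨h1, -, -⟩ := hom k B gr Y w g hgr hmin
  obtain ⟨hw, -, -⟩ := hmin
  have hsup : ∀ z, coeff (Finsupp.single z 1) b ≠ 0 → z ∈ b.vars := by
    intro z hz
    rw [mem_vars]
    exact ⟨Finsupp.single z 1, mem_support_iff.2 hz, by simp⟩
  refine ⟨Finsupp.onFinset b.vars (fun z => coeff (Finsupp.single z 1) b) hsup, ?_, ?_⟩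
  · intro z hz
    have hz' : coeff (Finsupp.single z 1) b ≠ 0 := by
      have h := Finsupp.mem_support_iff.1 hz
      rwa [Finsupp.onFinset_apply] at h
    refine ⟨?_, hsup z hz'⟩
    have h2 := hb hz'
    rw [Finsupp.weight_apply, Finsupp.sum_single_index (by simp)] at h2
    simpa using h2
  · have hos : ((Finsupp.onFinset b.vars (fun z => coeff (Finsupp.single z 1) b) hsup).sum
        fun z a => a • g z) = ∑ z ∈ b.vars, coeff (Finsupp.single z 1) b • g z :=
      Finsupp.onFinset_sum hsup (fun a => zero_smul k (g a))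
    rw [hos]
    obtain ⟨F, hF⟩ : ∃ F : (Y →₀ ℕ) → B, F = fun d => coeff d b • aeval g (monomial d (1 : k)) :=
      ⟨_, rfl⟩
    have hF0 : ∀ d, coeff d b = 0 → F d = 0 := by
      intro d hd
      rw [hF]
      simp only [hd, zero_smul]
    have hb1 : aeval g b = ∑ d ∈ b.support, F d := by
      conv_lhs => rw [b.as_sum, map_sum]
      refine Finset.sum_congr rfl fun d _ => ?_
      rw [hF]
      have : monomial d (coeff d b) = coeff d b • monomial d (1 : k) := by
        rw [smul_monomial, smul_eq_mul, mul_one]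
      rw [this, map_smul]
    have hx : ∀ z, F (Finsupp.single z 1) = coeff (Finsupp.single z 1) b • g z := by
      intro z
      rw [hF]
      have : (monomial (Finsupp.single z 1) (1 : k) : MvPolynomial Y k) = X z := rfl
      simp only [this, aeval_X]
    have hinj : Set.InjOn (fun z : Y => (Finsupp.single z 1 : Y →₀ ℕ)) b.vars := by
      intro z _ z' _ h
      exact Finsupp.single_left_injective one_ne_zero h
    have hs1 : ∑ z ∈ b.vars, coeff (Finsupp.single z 1) b • g z =
        ∑ d ∈ b.support with d ∈ b.vars.image fun z : Y => (Finsupp.single z 1 : Y →₀ ℕ), F d := by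
      calc ∑ z ∈ b.vars, coeff (Finsupp.single z 1) b • g z
          = ∑ z ∈ b.vars, F (Finsupp.single z 1) := Finset.sum_congr rfl fun z _ => (hx z).symm
        _ = ∑ d ∈ b.vars.image fun z : Y => (Finsupp.single z 1 : Y →₀ ℕ), F d :=
            (Finset.sum_image hinj).symm
        _ = _ := by
            symm
            refine Finset.sum_subset (fun d hd => (Finset.mem_filter.1 hd).2) ?_
            intro d hd hd'
            refine hF0 d ?_
            by_contra h
            exact hd' (Finset.mem_filter.2 ⟨mem_support_iff.2 h, hd⟩)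
    rw [hb1, hs1, ← Finset.sum_filter_add_sum_filter_not b.support
      (fun d => d ∈ b.vars.image fun z : Y => (Finsupp.single z 1 : Y →₀ ℕ)), add_sub_cancel_left]
    refine Submodule.sum_mem _ fun d hd => ?_
    obtain ⟨hd1, hd2⟩ := Finset.mem_filter.1 hd
    have hdw : Finsupp.weight w d = n := hb (mem_support_iff.1 hd1)
    have hd0 : d ≠ 0 := by
      rintro rfl
      rw [map_zero] at hdw
      omega
    obtain ⟨z, hz⟩ := Finsupp.ne_iff.1 hd0
    have hz1 : Finsupp.single z 1 ≤ d := by
      rw [Finsupp.single_le_iff]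
      exact Nat.one_le_iff_ne_zero.2 hz
    have hzd : Finsupp.single z 1 + (d - Finsupp.single z 1) = d := add_tsub_cancel_of_le hz1
    have hd' : d - Finsupp.single z 1 ≠ 0 := by
      intro h
      rw [h, add_zero] at hzd
      apply hd2
      refine Finset.mem_image.2 ⟨z, ?_, hzd⟩
      rw [mem_vars]
      exact ⟨d, hd1, Finsupp.mem_support_iff.2 hz⟩
    have hwz : Finsupp.weight w (Finsupp.single z 1) = w z := by
      rw [Finsupp.weight_apply, Finsupp.sum_single_index (by simp)]
      simp
    have hws : w z + Finsupp.weight w (d - Finsupp.single z 1) = n := by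
      rw [← hwz, ← map_add, hzd, hdw]
    rw [hF]
    refine Submodule.smul_mem _ _ (Submodule.subset_span ?_)
    refine ⟨w z, Finsupp.weight w (d - Finsupp.single z 1), (hw z).1,
      lin_pos w (fun y => (hw y).1) _ hd', hws, g z, (hw z).2,
      aeval g (monomial (d - Finsupp.single z 1) (1 : k)), ?_, ?_⟩
    · exact h1 _ _ (isWeightedHomogeneous_monomial w _ _ rfl)
    · have h3 : (monomial d (1 : k) : MvPolynomial Y k) =
          X z * monomial (d - Finsupp.single z 1) 1 := by
        have : (X z : MvPolynomial Y k) = monomial (Finsupp.single z 1) 1 := rfl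
        rw [this, monomial_mul, hzd, mul_one]
      rw [h3, map_mul, aeval_X]

end Pool.Agent.RS.H65
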