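import Pool.Agent.RS.StmtsF

set_option autoImplicit false

/-!
# Squad RS, row STA: stop, divisibility
-/

namespace Pool.Agent.RS.H65

open MvPolynomial

theorem sta_pow {E : Type} [Field E] {q : MvPolynomial ℕ E} (hq0 : q ≠ 0)
    (hq : 1 ≤ q.totalDegree) (m : ℕ) : m ≤ (q ^ m).totalDegree := by
  induction m with
  | zero => exact Nat.zero_le _
  | succ m ih =>
    rw [pow_succ, totalDegree_mul_of_isDomain (pow_ne_zero m hq0) hq0]
    omega

/-- STA. -/
theorem sta (ufl : UflStmt) (nmt : NmtStmt) (pjb : PjbStmt) : StaStmt := by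
  intro E _ ι _ _ a b e D hb hD he hpole
  obtain ⟨-, -, hn3⟩ := nmt ι
  obtain ⟨-, -, -, -, -, p6, p7, -⟩ := pjb E
  obtain ⟨ht, -⟩ := hn3 E a b hb
  have hprod : ∏ t, b t ≠ 0 := Finset.prod_ne_zero_iff.2 fun t _ => hb t
  refine ufl (MvPolynomial ℕ E) _ _ hprod ?_
  intro q hq n hn
  by_cases hqe : q ∣ e
  · -- `q ∣ e`
    have hq1 : 1 ≤ q.totalDegree := by
      obtain ⟨j, hj⟩ := p7 q hq
      by_contra h
      have h0 : q.totalDegree = 0 := by omega
      rw [totalDegree_eq_zero_iff_eq_C.1 h0, vars_C] at hj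
      exact Finset.notMem_empty _ hj
    have hP : ∀ t, q ^ (n - D) ∣ ∏ t' ∈ Finset.univ.erase t, b t' := by
      intro t
      obtain ⟨m, c, hc, hbc⟩ := WfDvdMonoid.max_power_factor (hb t) hq.irreducible
      have hmD : m ≤ D := by
        have h1 : (q ^ m).totalDegree ≤ (b t).totalDegree :=
          (p6 ∅ (q ^ m) (b t) (hb t) ⟨c, hbc⟩).2
        exact (sta_pow hq.ne_zero hq1 m).trans (h1.trans (hD t))
      rcases Nat.lt_or_ge n m with h | h
      · have h2 : n - D = 0 := by omega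
        rw [h2, pow_zero]
        exact one_dvd _
      · obtain ⟨k, rfl⟩ : ∃ k, n = m + k := ⟨n - m, by omega⟩
        have h3 : ∏ t, b t = q ^ m * (c * ∏ t' ∈ Finset.univ.erase t, b t') := by
          rw [← mul_assoc, ← hbc]
          exact (Finset.mul_prod_erase Finset.univ b (Finset.mem_univ t)).symm
        rw [h3, pow_add] at hn
        have h4 : q ^ k ∣ c * ∏ t' ∈ Finset.univ.erase t, b t' :=
          (mul_dvd_mul_iff_left (pow_ne_zero m hq.ne_zero)).1 hn
        have h5 : q ^ k ∣ ∏ t' ∈ Finset.univ.erase t, b t' :=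
          hq.pow_dvd_of_dvd_mul_left k hc h4
        exact (pow_dvd_pow q (by omega)).trans h5
    have hnum : q ^ (n - D) ∣ numer a b := by
      unfold numer
      exact Finset.dvd_sum fun t _ => Dvd.dvd.mul_left (hP t) _
    have h6 : q ^ (n - D) * q ^ D ∣ numer a b * e ^ D := mul_dvd_mul hnum (pow_dvd_pow_of_dvd hqe D)
    rw [← pow_add] at h6
    exact (pow_dvd_pow q (by omega)).trans h6
  · -- `¬ q ∣ e`
    obtain ⟨f, g, hg, hfg⟩ := hpole q hq hqe
    have hg0 : g ≠ 0 := by
      rintro rfl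
      exact hg (dvd_zero q)
    have hio : ∀ {x : MvPolynomial ℕ E}, x ≠ 0 → io E x ≠ 0 := fun {x} hx =>
      (map_ne_zero_iff _ io_injective).2 hx
    rw [ht, div_eq_div_iff (hio hprod) (hio hg0), ← map_mul, ← map_mul] at hfg
    have h1 : numer a b * g = f * ∏ t, b t := io_injective hfg
    have h2 : q ^ n ∣ numer a b * g := by
      rw [h1]
      exact Dvd.dvd.mul_left hn _
    exact Dvd.dvd.mul_right (hq.pow_dvd_of_dvd_mul_right n hg h2) _

end Pool.Agent.RS.H65
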