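import Pool.Agent.RS.StmtsT

set_option autoImplicit false

/-!
# Squad RS, row TER: termination
-/

namespace Pool.Agent.RS.H65

open MvPolynomial

/-- TER. -/
theorem ter (ges : GesStmt) (gcz : GczStmt) (gdm : GdmStmt) (gtw : GtwStmt) (gch : GchStmt)
    (gin : GinStmt) (iso : IsoStmt) (inc : IncStmt) : TerStmt := by
  intro E _ _ D Q
  by_contra hcon
  push Not at hcon
  choose j q lc e ρ α β hch a b ha hb hb0 hnot using hcon
  have hcz : CharZero (KS E) := gcz E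
  have hdm : IsDomain (BG E) := (gdm E).2
  obtain ⟨Y, hY⟩ := ges E
  obtain ⟨a0, ha0⟩ : ∃ a0 : BG E, (a0 : AS E) = gm E a := ⟨bg E a D ha, rfl⟩
  obtain ⟨b0, hb0'⟩ : ∃ b0 : BG E, (b0 : AS E) = gm E b := ⟨bg E b D hb, rfl⟩
  have hne : b0 ≠ 0 := by
    rintro rfl
    have h1 : gm E b = gm E (fun _ => 0) := hb0'.symm
    have h2 : ∀ᶠ n in (uf : Filter ℕ), b n = 0 := Filter.Germ.coe_eq.1 h1
    obtain ⟨n, hn⟩ := h2.exists
    exact hb0 n hn
  obtain ⟨m, hm⟩ := iso (KS E) Y (BG E) hY b0 hne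
  have hge : ∀ᶠ n in (uf : Filter ℕ), m + 1 ≤ n :=
    Nat.hyperfilter_le_atTop (Filter.eventually_ge_atTop (m + 1))
  obtain ⟨x, hx⟩ : ∃ x : ℕ → BG E, ∀ l, (x l : AS E) = gm E (fun n => X (j n l)) :=
    ⟨fun l => bg E (fun n => X (j n l)) 1 (fun n => by rw [totalDegree_X]), fun l => rfl⟩
  have hdis : ∀ᶠ n in (uf : Filter ℕ), ∀ l < m + 1, ∀ i < l, j n l ≠ j n i := by
    filter_upwards [hge] with n hn l hl i hi
    exact (hch n).1 l (by omega) i hi
  obtain ⟨hT1, hT2, hT3⟩ := gtw E j x (m + 1) hx hdis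
  obtain ⟨q', lc', e', ρ', α', β', hq', hq0, hA⟩ := gch E Q j q lc e ρ α β hch (m + 1) x hx
  have hnn : ¬ InN (K := FractionRing (BG E)) (PG E (fun i n => j n i)) q' (m + 1)
      (algebraMap (BG E) (FractionRing (BG E)) a0 / algebraMap (BG E) (FractionRing (BG E)) b0) := by
    intro hin
    have h1 := gin E j (m + 1) (fun n l => if l < n then q n l else 0) q' a b a0 b0 hq' ha0 hb0' hin
    obtain ⟨n, h3, h4⟩ := (h1.and hge).exists
    refine hnot n (inc E (j n) _ (q n) (m + 1) n _ h4 (fun l hl => ?_) h3)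
    rw [if_pos (by omega)]
  have h5 := hm (m + 1) (fun l => dBG E (fun n => j n l)) (PG E (fun i n => j n i)) x q' lc' e' ρ'
    α' β' a0 hT1 hA hq0 hT2 hT3 hnn
  omega

end Pool.Agent.RS.H65
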